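import Mathlib
import Pool.Agent.V11158.Walk
import Pool.Agent.V11158.Select

open Matrix Cardinal Pool.Agent.V11158

namespace Pool.Agent.Results.MP_0be93d_co.ExtensionCharacterized

/-- The unit sphere `S²`. -/
abbrev S2 : Type := {x : Fin 3 → ℝ // x ⬝ᵥ x = 1}

/-- `O(3)` acting on `S²`, as a group of permutations of `S²`. -/
def orth : Subgroup (Equiv.Perm S2) where
  carrier := {g | ∃ A : Matrix (Fin 3) (Fin 3) ℝ, Aᵀ * A = 1 ∧ ∀ x, (g x).1 = A.mulVec x.1}
  mul_mem' := by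
    rintro a b ⟨A, hA, ha⟩ ⟨B, hB, hb⟩
    refine ⟨A * B, ?_, fun x => ?_⟩
    · rw [transpose_mul, Matrix.mul_assoc, ← Matrix.mul_assoc Aᵀ, hA, Matrix.one_mul, hB]
    · rw [Equiv.Perm.mul_apply, ha, hb, mulVec_mulVec]
  one_mem' := ⟨1, by simp, fun x => by simp⟩
  inv_mem' := by
    rintro g ⟨A, hA, ha⟩
    refine ⟨Aᵀ, ?_, fun x => ?_⟩
    · rw [transpose_transpose, mul_eq_one_comm, hA]
    · have h := ha (g⁻¹ x)
      rw [show g (g⁻¹ x) = x from g.apply_symm_apply x] at h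
      rw [h, mulVec_mulVec, hA, one_mulVec]

/-- `SO(3)` acting on `S²`, as a group of permutations of `S²`. -/
def sorth : Subgroup (Equiv.Perm S2) where
  carrier := {g | ∃ A : Matrix (Fin 3) (Fin 3) ℝ, Aᵀ * A = 1 ∧ A.det = 1 ∧
    ∀ x, (g x).1 = A.mulVec x.1}
  mul_mem' := by
    rintro a b ⟨A, hA, dA, ha⟩ ⟨B, hB, dB, hb⟩
    refine ⟨A * B, ?_, ?_, fun x => ?_⟩
    · rw [transpose_mul, Matrix.mul_assoc, ← Matrix.mul_assoc Aᵀ, hA, Matrix.one_mul, hB]
    · rw [det_mul, dA, dB, one_mul]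
    · rw [Equiv.Perm.mul_apply, ha, hb, mulVec_mulVec]
  one_mem' := ⟨1, by simp, by simp, fun x => by simp⟩
  inv_mem' := by
    rintro g ⟨A, hA, dA, ha⟩
    refine ⟨Aᵀ, ?_, ?_, fun x => ?_⟩
    · rw [transpose_transpose, mul_eq_one_comm, hA]
    · rw [det_transpose, dA]
    · have h := ha (g⁻¹ x)
      rw [show g (g⁻¹ x) = x from g.apply_symm_apply x] at h
      rw [h, mulVec_mulVec, hA, one_mulVec]

/-- The coloring `c` is distinguishing: only the identity of `Γ` preserves it. -/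
def Distinguishing {K : Type} (Γ : Subgroup (Equiv.Perm S2)) (c : S2 → K) : Prop :=
  ∀ g ∈ Γ, (∀ x, c (g x) = c x) → g = 1

/-- The distinguishing number. -/
noncomputable def distNumber (Γ : Subgroup (Equiv.Perm S2)) : ℕ :=
  sInf {k : ℕ | 1 ≤ k ∧ ∃ c : S2 → Fin k, Distinguishing Γ c}

/-- The pointwise stabilizer of `W` in `Γ` is trivial. -/
def TrivialStabilizer (Γ : Subgroup (Equiv.Perm S2)) (W : Set S2) : Prop :=
  ∀ g ∈ Γ, (∀ w ∈ W, g w = w) → g = 1

/-- The precoloring extension property `P(W, Γ)`. -/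
def Extends (Γ : Subgroup (Equiv.Perm S2)) (W : Set S2) : Prop :=
  ∀ c : ↥(Wᶜ) → Fin (distNumber Γ), ∃ c' : S2 → Fin (distNumber Γ),
    (∀ x : ↥(Wᶜ), c' x = c x) ∧ Distinguishing Γ c'

lemma cross_mulVec (A : Matrix (Fin 3) (Fin 3) ℝ) (u v : Fin 3 → ℝ) :
    crossProduct (A.mulVec u) (A.mulVec v) = (adjugate A)ᵀ.mulVec (crossProduct u v) := by
  ext i
  fin_cases i <;>
  · simp [cross_apply, mulVec, dotProduct, Fin.sum_univ_three, adjugate_fin_three]
    ring

lemma cross_orth {A : Matrix (Fin 3) (Fin 3) ℝ} (hA : Aᵀ * A = 1) (u v : Fin 3 → ℝ) :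
    crossProduct (A.mulVec u) (A.mulVec v) = A.det • A.mulVec (crossProduct u v) := by
  rw [cross_mulVec]
  have h1 : adjugate A = A.det • Aᵀ := by
    have h2 : A * adjugate A = A.det • (1 : Matrix (Fin 3) (Fin 3) ℝ) := mul_adjugate A
    calc adjugate A = (Aᵀ * A) * adjugate A := by rw [hA, Matrix.one_mul]
      _ = Aᵀ * (A * adjugate A) := by rw [Matrix.mul_assoc]
      _ = A.det • Aᵀ := by rw [h2, Matrix.mul_smul, Matrix.mul_one]
  rw [h1, transpose_smul, transpose_transpose, smul_mulVec]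

lemma det_orth {A : Matrix (Fin 3) (Fin 3) ℝ} (hA : Aᵀ * A = 1) : A.det = 1 ∨ A.det = -1 := by
  have := congrArg Matrix.det hA
  rw [det_mul, det_transpose, det_one] at this
  exact mul_self_eq_one_iff.mp this

lemma norm_cross (u v : Fin 3 → ℝ) :
    crossProduct u v ⬝ᵥ crossProduct u v = (u ⬝ᵥ u) * (v ⬝ᵥ v) - (u ⬝ᵥ v) ^ 2 := by
  simp [cross_apply, dotProduct, Fin.sum_univ_three]
  ring

lemma dot_self_pos {u : Fin 3 → ℝ} (hu : u ≠ 0) : 0 < u ⬝ᵥ u := by
  rw [← not_le]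
  intro h
  apply hu
  have h1 : 0 ≤ u ⬝ᵥ u := by
    simp only [dotProduct, Fin.sum_univ_three]
    nlinarith [mul_self_nonneg (u 0), mul_self_nonneg (u 1), mul_self_nonneg (u 2)]
  exact dotProduct_self_eq_zero.mp (le_antisymm h h1)

/-- Unit vectors with vanishing cross product are equal or opposite. -/
lemma cross_zero {u v : Fin 3 → ℝ} (hu : u ⬝ᵥ u = 1) (hv : v ⬝ᵥ v = 1)
    (h : crossProduct u v = 0) : v = u ∨ v = -u := by
  have h1 := norm_cross u v
  rw [h, hu, hv] at h1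
  simp only [dotProduct_zero] at h1
  have h2 : (u ⬝ᵥ v) ^ 2 = 1 := by linarith
  have h3 : v ⬝ᵥ u = u ⬝ᵥ v := dotProduct_comm _ _
  rw [sq] at h2
  rcases mul_self_eq_one_iff.mp h2 with h4 | h4
  · left
    rw [← sub_eq_zero, ← dotProduct_self_eq_zero, sub_dotProduct, dotProduct_sub, dotProduct_sub,
      hu, hv, h3, h4]
    ring
  · right
    rw [← sub_eq_zero, ← dotProduct_self_eq_zero, sub_neg_eq_add, add_dotProduct, dotProduct_add,
      dotProduct_add, hu, hv, h3, h4]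
    ring

/-- A matrix killing `u`, `v` and `u × v ≠ 0` is zero. -/
lemma mat_zero {M : Matrix (Fin 3) (Fin 3) ℝ} {u v : Fin 3 → ℝ} (h : crossProduct u v ≠ 0)
    (hu : M.mulVec u = 0) (hv : M.mulVec v = 0) (hn : M.mulVec (crossProduct u v) = 0) :
    M = 0 := by
  set N : Matrix (Fin 3) (Fin 3) ℝ := Matrix.of ![u, v, crossProduct u v] with hN
  have hdet : N.det = crossProduct u v ⬝ᵥ crossProduct u v := by
    rw [det_fin_three]
    simp [hN, cross_apply, dotProduct, Fin.sum_univ_three]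
    ring
  have hunit : IsUnit (Nᵀ).det := by
    rw [det_transpose, hdet]
    exact (dot_self_pos h).ne'.isUnit
  have hMN : M * Nᵀ = 0 := by
    ext i j
    have e : (M * Nᵀ) i j = M.mulVec (N j) i := by
      simp [Matrix.mul_apply, mulVec, dotProduct]
    rw [e]
    fin_cases j
    · exact congrFun hu i
    · exact congrFun hv i
    · exact congrFun hn i
  calc M = M * Nᵀ * (Nᵀ)⁻¹ := (mul_nonsing_inv_cancel_right _ _ hunit).symm
    _ = 0 := by rw [hMN, Matrix.zero_mul]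

/-- the basis vectors -/
def bv (i : Fin 3) : S2 := ⟨Pi.single i 1, by simp⟩

lemma mat_eq_of_bv {A B : Matrix (Fin 3) (Fin 3) ℝ} (h : ∀ x : S2, A.mulVec x.1 = B.mulVec x.1) :
    A = B := by
  apply Matrix.ext_of_mulVec_single
  intro i
  exact h (bv i)

lemma perm_eq {A B : Matrix (Fin 3) (Fin 3) ℝ} {g g' : Equiv.Perm S2}
    (hg : ∀ x, (g x).1 = A.mulVec x.1) (hg' : ∀ x, (g' x).1 = B.mulVec x.1) (h : A = B) :
    g = g' := by
  ext1 x
  apply Subtype.ext
  rw [hg, hg', h]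

/-- an orthogonal matrix is determined by its determinant and two independent values -/
lemma mat_unique {A B : Matrix (Fin 3) (Fin 3) ℝ} (hA : Aᵀ * A = 1) (hB : Bᵀ * B = 1)
    (hdet : A.det = B.det) {u v : Fin 3 → ℝ} (h : crossProduct u v ≠ 0)
    (hu : A.mulVec u = B.mulVec u) (hv : A.mulVec v = B.mulVec v) : A = B := by
  rw [← sub_eq_zero]
  apply mat_zero h
  · rw [sub_mulVec, hu, sub_self]
  · rw [sub_mulVec, hv, sub_self]
  · have h1 := cross_orth hA u v
    have h2 := cross_orth hB u v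
    rw [hu, hv, h2, hdet] at h1
    have h3 : B.det ≠ 0 := by
      rcases det_orth hB with h | h <;> rw [h] <;> norm_num
    rw [sub_mulVec, sub_eq_zero]
    exact (smul_right_injective _ h3 h1).symm

lemma card_mat : #(Matrix (Fin 3) (Fin 3) ℝ) = 𝔠 := by
  have : #(Fin 3 → Fin 3 → ℝ) = 𝔠 := by
    rw [← Cardinal.power_def, ← Cardinal.power_def, Cardinal.mk_real, Cardinal.mk_fin,
      Cardinal.power_natCast, Cardinal.power_natCast,
      Cardinal.power_nat_eq Cardinal.aleph0_le_continuum (by norm_num),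
      Cardinal.power_nat_eq Cardinal.aleph0_le_continuum (by norm_num)]
  exact this

/-- the positive direction -/
lemma positive (Γ : Subgroup (Equiv.Perm S2)) (hΓ : Γ ≤ orth) (W : Set S2)
    (hcard : 𝔠 < 2 ^ #W) (hst : TrivialStabilizer Γ W) (c : S2 → ZMod 2) :
    ∃ c' : S2 → ZMod 2, (∀ x, x ∉ W → c' x = c x) ∧ Distinguishing Γ c' := by
  classical
  have hW : ℵ₀ < #W := by
    by_contra hcon
    rw [not_lt] at hcon
    have : (2 : Cardinal.{0}) ^ #W ≤ 𝔠 := by
      rw [← Cardinal.two_power_aleph0]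
      exact Cardinal.power_le_power_left two_ne_zero hcon
    exact absurd hcard (not_lt.mpr this)
  let G := {g : Equiv.Perm S2 // g ∈ Γ ∧ g ≠ 1}
  have hG : ∀ g : G, ∃ A : Matrix (Fin 3) (Fin 3) ℝ, Aᵀ * A = 1 ∧ ∀ x, (g.1 x).1 = A.mulVec x.1 :=
    fun g => hΓ g.2.1
  choose A hA hAg using hG
  have hu : ∀ (g g' : G) (w1 w2 : S2), crossProduct w1.1 w2.1 ≠ 0 → g.1 w1 = g'.1 w1 →
      g.1 w2 = g'.1 w2 → (A g).det = (A g').det → g = g' := by
    intro g g' w1 w2 hc h1 h2 hd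
    apply Subtype.ext
    apply perm_eq (hAg g) (hAg g')
    apply mat_unique (hA g) (hA g') hd hc
    · rw [← hAg, ← hAg, h1]
    · rw [← hAg, ← hAg, h2]
  have hd : ∀ (g : G) (w1 w2 : S2), crossProduct w1.1 w2.1 ≠ 0 → g.1 w1 = w1 →
      g.1 w2 = w2 → (A g).det = -1 := by
    intro g w1 w2 hc h1 h2
    rcases det_orth (hA g) with h | h
    · exfalso
      apply g.2.2
      apply perm_eq (hAg g) (fun x => (one_mulVec x.1).symm)
      apply mat_unique (hA g) (by simp) (by rw [h, det_one]) hc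
      · rw [← hAg, h1, one_mulVec]
      · rw [← hAg, h2, one_mulVec]
    · exact h
  let H : Set G := {g | ∃ w1 w2 : W, crossProduct w1.1.1 w2.1.1 ≠ 0 ∧ g.1 w1.1 ∈ W ∧ g.1 w2.1 ∈ W}
  have hfinpair : ∀ w : S2, {y : S2 | y.1 = w.1 ∨ y.1 = -w.1}.Finite := by
    intro w
    have : {y : S2 | y.1 = w.1 ∨ y.1 = -w.1} = Subtype.val ⁻¹' {w.1, -w.1} := by
      ext y; simp
    rw [this]
    exact Set.Finite.preimage Subtype.val_injective.injOn (Set.toFinite _)
  have hmain := extension W (fun (g : G) x => g.1 x) hW ?_ (fun g => g.1.injective) ?_ H ?_ ?_ ?_ c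
  · obtain ⟨c', h1, h2⟩ := hmain
    refine ⟨c', h1, ?_⟩
    intro g hg hinv
    by_contra hne
    obtain ⟨x, hx⟩ := h2 ⟨g, hg, hne⟩
    exact hx (hinv x)
  · -- cardinality of the group
    refine lt_of_le_of_lt ?_ hcard
    rw [← card_mat]
    apply Cardinal.mk_le_of_injective (f := A)
    intro g g' h
    apply Subtype.ext
    exact perm_eq (hAg g) (hAg g') h
  · -- nontrivial elements move a point of `W`
    intro g
    by_contra hcon
    push Not at hcon
    exact g.2.2 (hst g.1 g.2.1 hcon)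
  · -- `H` is small
    have hH : ∀ g : H, ∃ w : W × W, crossProduct w.1.1.1 w.2.1.1 ≠ 0 ∧ g.1.1 w.1.1 ∈ W ∧
        g.1.1 w.2.1 ∈ W := by
      rintro ⟨g, w1, w2, h⟩
      exact ⟨(w1, w2), h⟩
    choose w hw1 hw2 hw3 using hH
    let φ : H → ((W × W) × (W × W)) × Bool := fun g =>
      ((w g, (⟨_, hw2 g⟩, ⟨_, hw3 g⟩)), decide ((A g.1).det = 1))
    have hφ : Function.Injective φ := by
      intro g g' h
      simp only [φ, Prod.mk.injEq, Subtype.mk.injEq, decide_eq_decide] at h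
      obtain ⟨⟨h1, h2, h3⟩, h4⟩ := h
      apply Subtype.ext
      apply hu g.1 g'.1 (w g).1.1 (w g).2.1 (hw1 g)
      · rw [h2, h1]
      · rw [h3, h1]
      · rcases det_orth (hA g.1) with h5 | h5 <;> rcases det_orth (hA g'.1) with h6 | h6
        · rw [h5, h6]
        · have := h4.mp h5
          rw [this, h5]
        · have := h4.mpr h6
          rw [this, h6]
        · rw [h5, h6]
    refine (Cardinal.mk_le_of_injective hφ).trans ?_
    simp only [Cardinal.mk_prod, Cardinal.lift_id, Cardinal.mul_eq_self hW.le]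
    rw [Cardinal.mul_eq_left hW.le _ (by simp)]
    exact (Cardinal.lt_aleph0_of_finite _).le.trans hW.le
  · -- elements outside `H`
    intro g hg
    rcases Set.eq_empty_or_nonempty {x ∈ W | g.1 x ∈ W} with he | ⟨x, hx⟩
    · rw [he]; exact Set.finite_empty
    · refine (hfinpair x).subset ?_
      intro y hy
      by_contra hcon
      apply hg
      refine ⟨⟨x, hx.1⟩, ⟨y, hy.1⟩, ?_, hx.2, hy.2⟩
      intro h0
      exact hcon (cross_zero x.2 y.2 h0)
  · -- the exceptional elements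
    intro g g' h1 h2
    set F : Set S2 := {x | x ∈ W ∧ g.1 x = x ∧ g'.1 x = x} with hF
    have hFinf : F.Infinite := by
      intro hfin
      have hsub : W ⊆ F ∪ ({x ∈ W | g.1 x ≠ x} ∪ {x ∈ W | g'.1 x ≠ x}) := by
        intro x hx
        by_cases h3 : g.1 x = x
        · by_cases h4 : g'.1 x = x
          · exact Or.inl ⟨hx, h3, h4⟩
          · exact Or.inr (Or.inr ⟨hx, h4⟩)
        · exact Or.inr (Or.inl ⟨hx, h3⟩)
      have h3 := Cardinal.mk_le_mk_of_subset hsub
      have h4 : #(F ∪ ({x ∈ W | g.1 x ≠ x} ∪ {x ∈ W | g'.1 x ≠ x}) : Set S2) < #W := by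
        refine lt_of_le_of_lt (Cardinal.mk_union_le _ _) ?_
        apply Cardinal.add_lt_of_lt hW.le
        · exact lt_trans (Cardinal.lt_aleph0_iff_set_finite.mpr hfin) hW
        · exact lt_of_le_of_lt (Cardinal.mk_union_le _ _) (Cardinal.add_lt_of_lt hW.le h1 h2)
      exact absurd (lt_of_le_of_lt h3 h4) (lt_irrefl _)
    obtain ⟨w1, hw1⟩ := hFinf.nonempty
    obtain ⟨w2, hw2, hw2'⟩ := (hFinf.sdiff (hfinpair w1)).nonempty
    have hc : crossProduct w1.1 w2.1 ≠ 0 := fun h0 => hw2' (cross_zero w1.2 w2.2 h0)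
    apply hu g g' w1 w2 hc
    · rw [hw1.2.1, hw1.2.2]
    · rw [hw2.2.1, hw2.2.2]
    · rw [hd g w1 w2 hc hw1.2.1 hw2.2.1, hd g' w1 w2 hc hw1.2.2 hw2.2.2]

/-! ### the negative direction -/

lemma rm_det (a : ℝ × ℝ) : (rm a).det = -1 := by
  have hpos := (ax_dot_pos a).ne'
  have hd : ax a ⬝ᵥ ax a = a.1 ^ 2 + a.2 ^ 2 + 1 := ax_dot a
  rw [hd] at hpos
  unfold rm
  rw [hd, det_fin_three]
  simp only [Matrix.sub_apply, Matrix.smul_apply, vecMulVec_apply, ax, smul_eq_mul]
  simp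
  field_simp
  ring

lemma hm_orth (a : ℝ × ℝ) : (-rm a)ᵀ * (-rm a) = 1 := by
  rw [transpose_neg, rm_transpose, neg_mul_neg, rm_mul_self]

lemma hm_norm (a : ℝ × ℝ) (x : S2) : (-rm a).mulVec x.1 ⬝ᵥ (-rm a).mulVec x.1 = 1 := by
  rw [dotProduct_mulVec, ← mulVec_transpose, mulVec_mulVec, hm_orth, one_mulVec]
  exact x.2

/-- half-turn about the axis `ax a` -/
noncomputable def ht (a : ℝ × ℝ) : Equiv.Perm S2 where
  toFun x := ⟨(-rm a).mulVec x.1, hm_norm a x⟩
  invFun x := ⟨(-rm a).mulVec x.1, hm_norm a x⟩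
  left_inv x := by
    apply Subtype.ext
    simp only [mulVec_mulVec, neg_mul_neg, rm_mul_self, one_mulVec]
  right_inv x := by
    apply Subtype.ext
    simp only [mulVec_mulVec, neg_mul_neg, rm_mul_self, one_mulVec]

lemma ht_apply (a : ℝ × ℝ) (x : S2) : (ht a x).1 = -(rm a).mulVec x.1 := by
  change (-rm a).mulVec x.1 = _
  rw [neg_mulVec]

lemma ht_mem (a : ℝ × ℝ) : ht a ∈ sorth := by
  refine ⟨-rm a, hm_orth a, ?_, fun x => rfl⟩
  rw [det_neg, rm_det]
  norm_num

lemma ht_ne (a : ℝ × ℝ) : ht a ≠ 1 := by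
  intro h
  have h1 : -rm a = 1 := by
    apply mat_eq_of_bv
    intro x
    rw [one_mulVec]
    exact congrArg (fun g : Equiv.Perm S2 => (g x).1) h
  have hpos := ax_dot_pos a
  have hd : ax a ⬝ᵥ ax a = a.1 ^ 2 + a.2 ^ 2 + 1 := ax_dot a
  have h6 : (-rm a).trace = 3 := by rw [h1]; simp
  have h7 : (rm a).trace = 1 := by
    unfold rm
    rw [hd, trace_fin_three]
    simp only [Matrix.sub_apply, Matrix.smul_apply, vecMulVec_apply, ax, smul_eq_mul]
    rw [hd] at hpos
    have := hpos.ne'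
    simp
    field_simp
    ring
  rw [trace_neg, h7] at h6
  norm_num at h6

lemma act_ht {I : Type} (v : I → ℝ × ℝ) (l : List I) (x : S2) :
    (act (fun i y => ht (v i) y) l x).1 = (mat v l).mulVec x.1 ∨
    (act (fun i y => ht (v i) y) l x).1 = -(mat v l).mulVec x.1 := by
  induction l with
  | nil => left; simp
  | cons i l ih =>
    rw [act_cons, ht_apply, mat_cons, ← mulVec_mulVec]
    rcases ih with h | h
    · right; rw [h]
    · left; rw [h, mulVec_neg, neg_neg]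

/-- the negative direction -/
lemma negative (Γ : Subgroup (Equiv.Perm S2)) (hΓ : sorth ≤ Γ) (W : Set S2)
    (hcard : 2 ^ #W ≤ 𝔠) :
    ∃ c : S2 → ZMod 2, ∀ c' : S2 → ZMod 2, (∀ x, x ∉ W → c' x = c x) →
      ¬ Distinguishing Γ c' := by
  classical
  let I : Type := Cardinal.continuum.{0}.ord.ToType
  have hIc : #I = 𝔠 := Cardinal.mk_ord_toType _
  have hIio : ∀ i : I, #(Set.Iio i) < 𝔠 := by
    intro i
    have := Cardinal.mk_Iio_lt i (by rw [hIc]; simp [I])
    rwa [hIc] at this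
  have hle : #(Set W) ≤ #I := by
    rw [Cardinal.mk_set, hIc]
    exact hcard
  obtain ⟨e, he⟩ : ∃ e : I → Set W, Function.Surjective e := by
    obtain ⟨f⟩ := (Cardinal.le_def _ _).mp hle
    exact ⟨Function.invFun f, Function.invFun_surjective f.injective⟩
  have hWc : #W < 𝔠 := lt_of_lt_of_le (Cardinal.cantor _) hcard
  let Q : Set (Fin 3 → ℝ) := Subtype.val '' (W ∪ {bv 0})
  let P : Set (Fin 3 → ℝ) := Q ∪ (fun p => -p) '' Q
  have hQc : #Q < 𝔠 := by
    refine lt_of_le_of_lt Cardinal.mk_image_le ?_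
    refine lt_of_le_of_lt (Cardinal.mk_union_le _ _) ?_
    apply Cardinal.add_lt_of_lt Cardinal.aleph0_le_continuum hWc
    rw [Cardinal.mk_singleton]
    exact (lt_of_lt_of_le Cardinal.one_lt_aleph0 Cardinal.aleph0_le_continuum)
  have hPc : #P < 𝔠 := by
    refine lt_of_le_of_lt (Cardinal.mk_union_le _ _) ?_
    exact Cardinal.add_lt_of_lt Cardinal.aleph0_le_continuum hQc
      (lt_of_le_of_lt Cardinal.mk_image_le hQc)
  have hQ0 : ∀ p ∈ Q, p ≠ 0 := by
    rintro p ⟨x, -, rfl⟩ h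
    have := x.2
    rw [h] at this
    simp at this
  have hP0 : ∀ p ∈ P, p ≠ 0 := by
    rintro p (hp | ⟨q, hq, rfl⟩)
    · exact hQ0 p hp
    · exact neg_ne_zero.mpr (hQ0 q hq)
  have hPneg : ∀ p ∈ P, -p ∈ P := by
    rintro p (hp | ⟨q, hq, rfl⟩)
    · exact Or.inr ⟨p, hp, rfl⟩
    · rw [neg_neg]; exact Or.inl hq
  obtain ⟨v, hv⟩ := generic (fun _ : I => P) hIio (fun _ => hPc)
    (fun _ => ⟨(bv 0).1, Or.inl ⟨bv 0, Or.inr rfl, rfl⟩⟩) (fun _ => hP0) (fun _ => hPneg)
  have hγ : ∀ (i : I) (x : S2), ht (v i) (ht (v i) x) = x := fun i x => (ht (v i)).left_inv x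
  let F : I → Set S2 := fun i => Subtype.val '' (e i)
  obtain ⟨c, hc⟩ := exists_potential (γ := fun i y => ht (v i) y) hγ F (by
    intro l hl j hj x hx hact
    exfalso
    obtain ⟨m, hm, hmax⟩ : ∃ m ∈ l, ∀ j ∈ l, j ≤ m := by
      have hne' : l.toFinset.Nonempty := ⟨j, List.mem_toFinset.mpr hj⟩
      refine ⟨l.toFinset.max' hne', ?_, ?_⟩
      · exact List.mem_toFinset.mp (Finset.max'_mem _ _)
      · intro k hk
        exact Finset.le_max' _ _ (List.mem_toFinset.mpr hk)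
    have hxP : x.1 ∈ P := by
      obtain ⟨w, -, rfl⟩ := hx
      exact Or.inl ⟨w.1, Or.inl w.2, rfl⟩
    rcases act_ht v l x with h | h
    · rw [hact] at h
      exact hv m l hl hm hmax x.1 hxP x.1 hxP h.symm
    · rw [hact] at h
      exact hv m l hl hm hmax x.1 hxP (-x.1) (hPneg _ hxP) (neg_eq_iff_eq_neg.mpr h).symm)
  refine ⟨c, fun c' hc' hdist => ?_⟩
  obtain ⟨i, hi⟩ := he {x | c' x.1 ≠ c x.1}
  have hFi : ∀ x, x ∈ F i ↔ c' x ≠ c x := by
    intro x
    simp only [F, hi]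
    constructor
    · rintro ⟨w, hw, rfl⟩
      exact hw
    · intro h
      have hx : x ∈ W := by
        by_contra hcon
        exact h (hc' x hcon)
      exact ⟨⟨x, hx⟩, h, rfl⟩
  have hc'x : ∀ x, c' x = c x + ind F i x := by
    intro x
    unfold ind
    by_cases hx : c' x = c x
    · rw [if_neg (fun h => (hFi x).mp h hx), hx, add_zero]
    · rw [if_pos ((hFi x).mpr hx)]
      have : ∀ a b : ZMod 2, a ≠ b → a = b + 1 := by decide
      exact this _ _ hx
  have hinv : ∀ x, c' (ht (v i) x) = c' x := by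
    intro x
    rw [hc'x, hc'x, hc]
    have := zmod2_add_self (ind F i (ht (v i) x))
    linear_combination this
  exact ht_ne (v i) (hdist _ (hΓ (ht_mem (v i))) hinv)

lemma sorth_le_orth : sorth ≤ orth := by
  rintro g ⟨A, h1, -, h2⟩
  exact ⟨A, h1, h2⟩

lemma card_S2 : #S2 = 𝔠 := by
  apply le_antisymm
  · refine (Cardinal.mk_subtype_le _).trans ?_
    rw [← Cardinal.power_def, Cardinal.mk_real, Cardinal.mk_fin, Cardinal.power_natCast]
    exact (Cardinal.power_nat_eq Cardinal.aleph0_le_continuum (by norm_num)).le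
  · rw [← Cardinal.mk_real]
    have hne : ∀ t : ℝ, Real.sqrt (1 + t ^ 2) ≠ 0 := fun t => (Real.sqrt_pos.mpr (by positivity)).ne'
    let f : ℝ → S2 := fun t => ⟨![t / Real.sqrt (1 + t ^ 2), 1 / Real.sqrt (1 + t ^ 2), 0], by
      have h1 := Real.sq_sqrt (show (0 : ℝ) ≤ 1 + t ^ 2 by positivity)
      have h2 := hne t
      simp only [dotProduct, Fin.sum_univ_three, Matrix.cons_val_zero, Matrix.cons_val_one,
        Matrix.cons_val]
      field_simp
      rw [h1]; ring⟩
    apply Cardinal.mk_le_of_injective (f := f)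
    intro s t hst
    have h0 := congrFun (congrArg Subtype.val hst) 0
    have h1 := congrFun (congrArg Subtype.val hst) 1
    simp only [f, Matrix.cons_val_zero, Matrix.cons_val_one] at h0 h1
    have h2 := hne t
    have h3 := hne s
    have h4 : Real.sqrt (1 + s ^ 2) = Real.sqrt (1 + t ^ 2) := by
      field_simp at h1
      exact h1.symm
    rw [h4] at h0
    field_simp at h0
    exact h0

lemma dist_two (Γ : Subgroup (Equiv.Perm S2)) (h1 : sorth ≤ Γ) (h2 : Γ ≤ orth) :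
    distNumber Γ = 2 := by
  have hst : TrivialStabilizer Γ Set.univ := by
    intro g _ hg
    ext1 x
    exact hg x trivial
  have hcard : 𝔠 < 2 ^ #(Set.univ : Set S2) := by
    rw [Cardinal.mk_univ, card_S2]
    exact Cardinal.cantor _
  obtain ⟨c', -, hc'⟩ := positive Γ h2 Set.univ hcard hst 0
  have hmem : 2 ∈ {k : ℕ | 1 ≤ k ∧ ∃ c : S2 → Fin k, Distinguishing Γ c} := ⟨by norm_num, c', hc'⟩
  apply le_antisymm (Nat.sInf_le hmem)
  apply le_csInf ⟨2, hmem⟩
  rintro k ⟨hk1, c, hc⟩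
  by_contra hlt
  have hk : k = 1 := by omega
  subst hk
  exact ht_ne 0 (hc (ht 0) (h1 (ht_mem 0)) (fun x => Subsingleton.elim _ _))

lemma extends_iff (Γ : Subgroup (Equiv.Perm S2)) (h1 : sorth ≤ Γ) (h2 : Γ ≤ orth) (W : Set S2) :
    Extends Γ W ↔ ∀ c : S2 → ZMod 2, ∃ c' : S2 → ZMod 2, (∀ x, x ∉ W → c' x = c x) ∧
      Distinguishing Γ c' := by
  unfold Extends
  rw [dist_two Γ h1 h2]
  constructor
  · intro h c
    obtain ⟨c', h3, h4⟩ := h (fun x => c x.1)
    exact ⟨c', fun x hx => h3 ⟨x, hx⟩, h4⟩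
  · intro h c
    classical
    obtain ⟨c', h3, h4⟩ := h (fun x => if hx : x ∈ Wᶜ then c ⟨x, hx⟩ else 0)
    refine ⟨c', fun x => ?_, h4⟩
    exact (h3 x.1 x.2).trans (dif_pos x.2)

lemma main_iff (Γ : Subgroup (Equiv.Perm S2)) (h1 : sorth ≤ Γ) (h2 : Γ ≤ orth) (W : Set S2)
    (hW : TrivialStabilizer Γ W) : Extends Γ W ↔ 𝔠 < 2 ^ #W := by
  rw [extends_iff Γ h1 h2]
  constructor
  · intro h
    by_contra hcon
    obtain ⟨c, hc⟩ := negative Γ h1 W (not_lt.mp hcon)
    obtain ⟨c', h3, h4⟩ := h c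
    exact hc c' h3 h4
  · intro h c
    exact positive Γ h2 W h hW c

lemma main_ex (Γ : Subgroup (Equiv.Perm S2)) (h1 : sorth ≤ Γ) (h2 : Γ ≤ orth) :
    (∃ W : Set S2, ¬ W.Countable ∧ TrivialStabilizer Γ W ∧ ¬ Extends Γ W) ↔
      (2 : Cardinal.{0}) ^ ℵ₁ = 2 ^ ℵ₀ := by
  constructor
  · rintro ⟨W, hW, hst, hE⟩
    rw [main_iff Γ h1 h2 W hst, not_lt] at hE
    have h3 : ℵ₁ ≤ #W := by
      rw [← Cardinal.succ_aleph0, Order.succ_le_iff, ← not_le, Cardinal.le_aleph0_iff_set_countable]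
      exact hW
    apply le_antisymm
    · rw [Cardinal.two_power_aleph0]
      exact (Cardinal.power_le_power_left two_ne_zero h3).trans hE
    · exact Cardinal.power_le_power_left two_ne_zero Cardinal.aleph0_lt_aleph_one.le
  · intro h
    have hle : ℵ₁ ≤ #S2 := by
      rw [card_S2]
      exact Cardinal.aleph_one_le_continuum
    obtain ⟨T, hT⟩ := Cardinal.le_mk_iff_exists_set.mp hle
    set W : Set S2 := T ∪ Set.range bv with hWdef
    have hWc : #W = ℵ₁ := by
      apply le_antisymm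
      · refine (Cardinal.mk_union_le _ _).trans ?_
        rw [hT]
        refine (add_le_add le_rfl (?_ : _ ≤ ℵ₀)).trans ?_
        · exact (Cardinal.lt_aleph0_of_finite _).le
        · rw [Cardinal.add_eq_left Cardinal.aleph0_lt_aleph_one.le Cardinal.aleph0_lt_aleph_one.le]
      · rw [← hT]
        exact Cardinal.mk_le_mk_of_subset Set.subset_union_left
    have hst : TrivialStabilizer Γ W := by
      intro g hg hfix
      obtain ⟨A, hA, hAg⟩ := h2 hg
      have : A = 1 := by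
        apply Matrix.ext_of_mulVec_single
        intro i
        have h3 := hfix (bv i) (Or.inr ⟨i, rfl⟩)
        have h4 := hAg (bv i)
        rw [h3] at h4
        rw [one_mulVec]
        exact h4.symm
      apply perm_eq hAg (fun x => (one_mulVec x.1).symm) this
    refine ⟨W, ?_, hst, ?_⟩
    · rw [← Cardinal.le_aleph0_iff_set_countable, hWc, not_le]
      exact Cardinal.aleph0_lt_aleph_one
    · rw [main_iff Γ h1 h2 W hst, hWc, h, Cardinal.two_power_aleph0]
      exact lt_irrefl _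

/-- Let `Γ` be `O(3)` or `SO(3)`. The distinguishing number of `S²` is `2`. A set `W ⊆ S²` with
trivial pointwise stabilizer in `Γ` has the precoloring extension property if and only if it has
more than continuum many subsets. Hence an uncountable such `W` without the property exists if and
only if `2^ℵ₁ = 2^ℵ₀`. -/
theorem result (Γ : Subgroup (Equiv.Perm S2)) (hΓ : Γ = orth ∨ Γ = sorth) :
    distNumber Γ = 2 ∧
    (∀ W : Set S2, TrivialStabilizer Γ W → (Extends Γ W ↔ 𝔠 < 2 ^ #W)) ∧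
    ((∃ W : Set S2, ¬ W.Countable ∧ TrivialStabilizer Γ W ∧ ¬ Extends Γ W) ↔
      (2 : Cardinal.{0}) ^ ℵ₁ = 2 ^ ℵ₀) := by
  have h1 : sorth ≤ Γ := by
    rcases hΓ with rfl | rfl
    · exact sorth_le_orth
    · exact le_rfl
  have h2 : Γ ≤ orth := by
    rcases hΓ with rfl | rfl
    · exact le_rfl
    · exact sorth_le_orth
  exact ⟨dist_two Γ h1 h2, main_iff Γ h1 h2, main_ex Γ h1 h2⟩

end Pool.Agent.Results.MP_0be93d_co.ExtensionCharacterized
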